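import Pool.Agent.R893.HW.Common

/-!
# MP_d5e15b_co: two Heawood graphs with one right vertex joined to all left vertices
-/

namespace Pool.Agent.Results.MP_d5e15b_co.ConedHeawood

open Pool.Agent.R893.HW Pool.Agent.R893.HW.Bigraph

/-- two disjoint copies of the Heawood graph, with an additional right vertex `none` which is
adjacent to all left vertices -/
def G : Bigraph (Bool × Fin 7) (Option (Bool × Fin 7)) := ⟨fun a b => ∀ l, b = some l → adj a l⟩

lemma G_some (a l : Bool × Fin 7) : G.adj a (some l) ↔ adj a l :=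
  ⟨fun h => h l rfl, fun h m hm => by rw [← Option.some.inj hm]; exact h⟩

lemma G_none (a : Bool × Fin 7) : G.adj a none := fun l h => by cases h

/-- the twisted swap -/
def tw (u : Fin 3) (k : Fin 7) : Equiv.Perm (Bool × Fin 7) × Equiv.Perm (Option (Bool × Fin 7)) :=
  (sw u k, (sw u k).optionCongr)

/-- the copy of a vertex -/
def cp : (Bool × Fin 7) ⊕ Option (Bool × Fin 7) → Option Bool
  | Sum.inl a => some a.1
  | Sum.inr none => none
  | Sum.inr (some b) => some b.1

/-- the first copy -/
def L0 : Set ((Bool × Fin 7) ⊕ Option (Bool × Fin 7)) := {v | cp v = some false}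

lemma onV_cp (u : Fin 3) (k : Fin 7) (v : (Bool × Fin 7) ⊕ Option (Bool × Fin 7)) :
    cp (onV (tw u k) v) = (cp v).map (fun s => !s) := by
  rcases v with a | (_ | a) <;> rfl

lemma mem_fix_tw (u : Fin 3) (k : Fin 7) (v : (Bool × Fin 7) ⊕ Option (Bool × Fin 7)) :
    v ∈ Bigraph.Fix (tw u k) ↔ v = Sum.inr none := by
  constructor
  · intro h
    rcases v with a | (_ | a)
    · exact absurd (Sum.inl.inj h) (sw_ne u k a)
    · rfl
    · exact absurd (Option.some.inj (Sum.inr.inj h)) (sw_ne u k a)
  · rintro rfl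
    rfl

lemma adj_copy {u v : (Bool × Fin 7) ⊕ Option (Bool × Fin 7)} (h : G.graph.Adj u v)
    (hu : u ≠ Sum.inr none) (hv : v ≠ Sum.inr none) : cp u = cp v := by
  rcases h with ⟨a, b, h, rfl, rfl⟩ | ⟨a, b, h, rfl, rfl⟩
  · rcases b with _ | b
    · exact absurd rfl hv
    · exact congrArg some ((G_some a b).1 h).1
  · rcases b with _ | b
    · exact absurd rfl hu
    · exact congrArg some ((G_some a b).1 h).1.symm

lemma isFold_tw (u : Fin 3) (k : Fin 7) : G.IsFold (tw u k) L0 := by
  have hinv : ∀ v, onV (tw u k) (onV (tw u k) v) = v := by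
    rintro (a | (_ | a))
    · exact congrArg Sum.inl (sw_sw u k a)
    · rfl
    · exact congrArg (fun x => Sum.inr (some x)) (sw_sw u k a)
  refine ⟨⟨?_, ?_, ?_, ?_⟩, ⟨?_, ?_⟩, ?_, ?_, ?_, ?_⟩
  · rintro a (_ | b)
    · exact ⟨fun _ => G_none _, fun _ => G_none _⟩
    · show G.adj (sw u k a) (some (sw u k b)) ↔ _
      rw [G_some, G_some, sw_adj]
  · intro h
    have := congrArg (fun ψ : Equiv.Perm (Bool × Fin 7) × Equiv.Perm (Option (Bool × Fin 7)) =>
      ψ.1 (false, 0)) h
    exact sw_ne u k _ this
  · refine Prod.ext ?_ ?_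
    · ext1 x
      exact sw_sw u k x
    · ext1 x
      rcases x with _ | x
      · rfl
      · exact congrArg some (sw_sw u k x)
  · intro h
    have h1 := h ⟨Sum.inl (false, 0), by rw [Set.mem_compl_iff, mem_fix_tw]; simp⟩
      ⟨Sum.inl (true, 0), by rw [Set.mem_compl_iff, mem_fix_tw]; simp⟩
    have h2 := const_of_reachable
      (fun v : ((Bigraph.Fix (tw u k))ᶜ : Set _) => cp v.1) (fun a b hab => adj_copy hab
        (fun h3 => a.2 ((mem_fix_tw u k _).2 h3)) (fun h3 => b.2 ((mem_fix_tw u k _).2 h3))) h1
    simp [cp] at h2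
  · intro v hv h
    rw [mem_fix_tw] at h
    subst h
    cases hv
  · intro x hx y hy hxy
    show _ = some false
    rw [← adj_copy hxy]
    · exact hx
    · rintro rfl; cases hx
    · rintro rfl; exact hy ((mem_fix_tw u k _).2 rfl)
  · rw [Set.disjoint_left]
    intro v hv h
    rw [mem_fix_tw] at h
    subst h
    cases hv
  · rw [Set.disjoint_left]
    rintro x hx ⟨y, hy, rfl⟩
    have h1 : _ = some false := hx
    have h2 : _ = some false := hy
    rw [onV_cp, h2] at h1
    simp at h1
  · rw [Set.disjoint_left]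
    rintro x hx ⟨y, hy, rfl⟩
    rw [mem_fix_tw] at hx
    have h2 : _ = some false := hy
    have h1 := congrArg cp hx
    rw [onV_cp, h2] at h1
    cases h1
  · ext v
    simp only [Set.mem_union, Set.mem_univ, iff_true]
    rcases hv : cp v with _ | (_ | _)
    · left; right
      rw [mem_fix_tw]
      rcases v with a | (_ | a)
      · cases hv
      · rfl
      · cases hv
    · exact Or.inl (Or.inl hv)
    · right
      refine ⟨onV (tw u k) v, ?_, hinv v⟩
      show _ = some false
      rw [onV_cp, hv]; rfl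

lemma tw_mem (u : Fin 3) (k : Fin 7) : tw u k ∈ G.foldGroup :=
  Subgroup.subset_closure ⟨L0, isFold_tw u k⟩

lemma aff_pt : ∀ x y : Fin 7, ∃ k, aff 0 k x = y := by decide

/-- every left vertex is an image of the base vertex -/
lemma reach (a : Bool × Fin 7) : ∃ γ ∈ G.foldGroup, γ.1 (false, 0) = a := by
  have key : ∀ p, ∃ γ ∈ G.foldGroup, γ.1 (false, 0) = (true, p) := by
    intro p
    obtain ⟨k, h4⟩ := aff_pt 0 p
    refine ⟨tw 0 k, tw_mem 0 k, ?_⟩
    show sw 0 k (false, 0) = _
    simp [sw_apply, swFun, h4]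
  rcases a with ⟨_ | _, p⟩
  · obtain ⟨γ, h1, h2⟩ := key (sw 0 0 (false, p)).2
    refine ⟨tw 0 0 * γ, G.foldGroup.mul_mem (tw_mem 0 0) h1, ?_⟩
    show sw 0 0 (γ.1 _) = _
    rw [h2]; exact sw_sw 0 0 (false, p)
  · exact key p

lemma leftTransitive : LeftTransitive G.foldGroup := by
  intro a a'
  obtain ⟨γ, h1, h2⟩ := reach a
  obtain ⟨γ', h1', h2'⟩ := reach a'
  refine ⟨γ' * γ⁻¹, G.foldGroup.mul_mem h1' (G.foldGroup.inv_mem h1), ?_⟩
  show γ'.1 (γ.1.symm a) = _
  rw [← h2, Equiv.symm_apply_apply, h2']

/-- at most one left vertex in each copy -/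
def Small (U : Set (Bool × Fin 7)) : Prop := ∀ a ∈ U, ∀ a' ∈ U, a.1 = a'.1 → a = a'

/-- automorphisms fix the additional vertex -/
lemma fix_none {φ : Equiv.Perm (Bool × Fin 7) × Equiv.Perm (Option (Bool × Fin 7))}
    (h : ∀ a b, G.adj (φ.1 a) (φ.2 b) ↔ G.adj a b) : φ.2 none = none := by
  rcases hn : φ.2 none with _ | l
  · rfl
  · exfalso
    have h1 : ∀ a, adj (φ.1 a) l := fun a => by
      have := (h a none).2 (G_none a)
      rw [hn, G_some] at this
      exact this
    have h2 := (h1 (φ.1.symm (!l.1, 0))).1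
    rw [Equiv.apply_symm_apply] at h2
    simp at h2

lemma pull_small {φ L} (h : G.IsFold φ L) {U : Set (Bool × Fin 7)}
    (hU : Small U) : Small (pullLeft φ L U) := by
  have hn := fix_none h.aut
  have hne : ∀ b, (φ.2 (some b)).isSome := by
    intro b
    rcases hb : φ.2 (some b) with _ | c
    · rw [← hn] at hb
      exact absurd (φ.2.injective hb) (by simp)
    · rfl
  -- the induced permutation of the lines
  set g0 : Bool × Fin 7 → Bool × Fin 7 := fun b => (φ.2 (some b)).get (hne b) with hg0
  have hg : ∀ b, φ.2 (some b) = some (g0 b) := fun b => (Option.some_get (hne b)).symm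
  have hgg : Function.Involutive g0 := by
    intro b
    have h1 := h.inv2 (some b)
    rw [hg, hg] at h1
    exact Option.some.inj h1
  have raw : RawFold φ.1 hgg.toPerm {a | Sum.inl a ∈ L} {b | Sum.inr (some b) ∈ L} := by
    refine ⟨?_, h.inv1, hgg, ?_, ?_, ?_, ?_, ?_, ?_⟩
    · intro a b
      have := h.aut a (some b)
      rw [hg, G_some, G_some] at this
      exact this
    · intro a
      rcases h.cases (Sum.inl a) with h1 | h1 | h1
      · exact Or.inl (Sum.inl.inj h1)
      · exact Or.inr (Or.inl h1)
      · exact Or.inr (Or.inr h1)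
    · intro a ha
      exact h.not_mem ha
    · intro b
      rcases h.cases (Sum.inr (some b)) with h1 | h1 | h1
      · left
        have h2 := Sum.inr.inj h1
        rw [hg] at h2
        exact Option.some.inj h2
      · exact Or.inr (Or.inl h1)
      · right; right
        have h2 : Sum.inr (φ.2 (some b)) ∈ L := h1
        rw [hg] at h2
        exact h2
    · intro b hb hb2
      refine h.not_mem (v := Sum.inr (some b)) hb ?_
      show Sum.inr (φ.2 (some b)) ∈ L
      rw [hg]
      exact hb2
    · intro a b ha hb hab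
      refine h.closed (u := Sum.inl a) (v := Sum.inr (some b)) ha (fun h1 => ?_)
        (adj_lr ((G_some a b).2 hab))
      have h2 := Sum.inr.inj h1
      rw [hg] at h2
      exact hb (Option.some.inj h2)
    · intro a b hb ha hab
      exact h.closed (u := Sum.inr (some b)) (v := Sum.inl a) hb (fun h1 => ha (Sum.inl.inj h1))
        (adj_rl ((G_some a b).2 hab))
  rcases classify raw with ⟨h1, h2⟩ | ⟨s, h1, h2, h3, h4⟩
  · exfalso
    apply h.1.2.1
    refine Prod.ext ?_ ?_ <;> ext1 x
    · exact h1 x
    · rcases x with _ | x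
      · exact hn
      · rw [hg]
        exact congrArg some (h2 x)
  · rintro a ⟨c, hc, h5⟩ a' ⟨c', hc', h5'⟩ hs
    have k3 : ∀ a, Sum.inl a ∈ L ↔ a.1 = s := h3
    by_cases hL : a.1 = s
    · have e1 : a = c := by
        simp only [leftFold, (k3 a).2 hL, if_true] at h5
        exact Sum.inl.inj h5
      have e3 : a' = c' := by
        simp only [leftFold, (k3 a').2 (hs ▸ hL), if_true] at h5'
        exact Sum.inl.inj h5'
      subst e1 e3
      exact hU _ hc _ hc' hs
    · have n1 : Sum.inl a ∉ L := fun h => hL ((k3 a).1 h)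
      have n3 : Sum.inl a' ∉ L := fun h => hL (hs.trans ((k3 a').1 h))
      have e1 : φ.1 a = c := by
        simp only [leftFold, n1, if_false] at h5
        exact Sum.inl.inj h5
      have e3 : φ.1 a' = c' := by
        simp only [leftFold, n3, if_false] at h5'
        exact Sum.inl.inj h5'
      have e5 := hU _ hc _ hc' (by rw [← e1, ← e3, h1, h1, hs])
      rw [← e1, ← e3] at e5
      exact φ.1.injective e5

lemma not_percolating : ¬ G.LeftCutPercolating := by
  rintro ⟨m, U, ⟨a, h0⟩, hm, hstep⟩
  have : ∀ i ≤ m, Small (U i) := by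
    intro i
    induction i with
    | zero =>
      intro _
      rw [h0]
      rintro _ rfl _ rfl _
      rfl
    | succ i ih =>
      intro hi
      obtain ⟨φ, L, hf, hE⟩ := hstep i hi
      rw [hE]
      exact pull_small hf (ih (by omega))
  have h1 := this m le_rfl
  rw [hm] at h1
  have h2 := h1 (false, 0) trivial (false, 1) trivial rfl
  simp at h2

lemma connected : G.graph.Connected := by
  have hl : ∀ a, G.graph.Reachable (Sum.inr none) (Sum.inl a) := fun a =>
    (adj_rl (G_none a)).reachable
  have hall : ∀ v, G.graph.Reachable (Sum.inr none) v := by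
    rintro (a | (_ | b))
    · exact hl a
    · exact SimpleGraph.Reachable.refl _
    · obtain ⟨p, hp⟩ := exists_pt b
      exact (hl p).trans (adj_lr ((G_some p b).2 hp)).reachable
  have : Nonempty ((Bool × Fin 7) ⊕ Option (Bool × Fin 7)) := ⟨Sum.inr none⟩
  exact ⟨fun v w => (hall v).symm.trans (hall w)⟩

/-- **The answer to the question is negative**: there is a (connected) bigraph whose group
generated by the fold involutions is transitive on the left vertices, but which is not
left-cut-percolating. -/
theorem result : ∃ (A B : Type) (_ : Fintype A) (_ : Fintype B) (G : Bigraph A B),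
    G.graph.Connected ∧ LeftTransitive G.foldGroup ∧ ¬ G.LeftCutPercolating :=
  ⟨_, _, inferInstance, inferInstance, G, connected, leftTransitive, not_percolating⟩

end Pool.Agent.Results.MP_d5e15b_co.ConedHeawood
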